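import Pool.Agent.X43.LP.B

/-! MP_00ae1c_co: the limit statement Q1 and the exact statement Q2 on `C(n, t, w, w - 2)` fail for
all `t ≥ 1`, `w ≥ 4` with `(t + 1) w (w - 1) < (w + t) (w + t - 1)`: classes made of all the
`w`-subsets of `⌈(t + 1) / 2⌉` disjoint `(w + 1)`-sets are better than classes of `t + 1` disjoint
`w`-sets. -/

set_option autoImplicit false

open Filter Finset
open scoped Topology

namespace Pool.Agent.Results.MP_00ae1c_co.BothFail

/-- the support of a binary word -/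
def supp {n : ℕ} (x : Fin n → Bool) : Finset (Fin n) := univ.filter fun i => x i = true

/-- `P` is the family of the classes of an `(n, t, w, e)`-LPECC code of size `b` -/
structure IsLPECC (n t w e b : ℕ) (P : Fin b → Finset (Fin n → Bool)) : Prop where
  /-- classes of a partition are nonempty -/
  nonempty : ∀ i, (P i).Nonempty
  /-- they are pairwise disjoint -/
  disjoint : ∀ i j, i ≠ j → Disjoint (P i) (P j)
  /-- every `t`-set of coordinates is avoided by a word of every class -/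
  avoid : ∀ T : Finset (Fin n), T.card = t → ∀ i, ∃ x ∈ P i, Disjoint (supp x) T
  /-- the weights are at most `w` -/
  weight : ∀ i, ∀ x ∈ P i, (supp x).card ≤ w
  /-- words of different classes have distance at least `2 e + 1` -/
  dist : ∀ i j, i ≠ j → ∀ x ∈ P i, ∀ y ∈ P j, 2 * e + 1 ≤ hammingDist x y

/-- `C(n, t, w, e)`, the largest size of an `(n, t, w, e)`-LPECC code -/
noncomputable def C (n t w e : ℕ) : ℕ :=
  sSup {b | ∃ P : Fin b → Finset (Fin n → Bool), IsLPECC n t w e b P}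

/-- the sizes are bounded, so that `C` is a maximum -/
theorem bdd (n t w e : ℕ) :
    BddAbove {b | ∃ P : Fin b → Finset (Fin n → Bool), IsLPECC n t w e b P} := by
  refine ⟨Fintype.card (Fin n → Bool), ?_⟩
  rintro b ⟨P, hP⟩
  choose f hf using hP.nonempty
  have hinj : Function.Injective f := by
    intro i j hij
    by_contra hne
    exact Finset.disjoint_left.1 (hP.disjoint i j hne) (hf i) (hij ▸ hf j)
  have := Fintype.card_le_of_injective f hinj
  rwa [Fintype.card_fin] at this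

theorem le_C {t w n b : ℕ} (hw : 2 ≤ w) (h : Pool.Agent.X43.LP.Has t w n b) :
    b ≤ C n t w (w - 2) := by
  classical
  obtain ⟨P, hP⟩ := h
  let ind : Finset (Fin n) → (Fin n → Bool) := fun s i => decide (i ∈ s)
  have hsupp : ∀ s, supp (ind s) = s := by
    intro s
    ext i
    simp [supp, ind]
  have hmem : ∀ (i : Fin b) (x : Fin n → Bool),
      x ∈ ((univ : Finset (Finset (Fin n))).filter (fun s => s ∈ P i)).image ind ↔
        ∃ s ∈ P i, ind s = x := by
    intro i x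
    rw [mem_image]
    constructor
    · rintro ⟨s, hs, hx⟩
      exact ⟨s, (mem_filter.1 hs).2, hx⟩
    · rintro ⟨s, hs, hx⟩
      exact ⟨s, mem_filter.2 ⟨mem_univ _, hs⟩, hx⟩
  refine le_csSup (bdd n t w (w - 2)) ⟨fun i =>
    ((univ : Finset (Finset (Fin n))).filter (fun s => s ∈ P i)).image ind, ?_, ?_, ?_, ?_, ?_⟩
  · intro i
    obtain ⟨s, hs, -⟩ := hP.cov i ∅ (by simp)
    exact ⟨ind s, (hmem i _).2 ⟨s, hs, rfl⟩⟩
  · intro i j hij
    rw [Finset.disjoint_left]
    intro x hx hx'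
    obtain ⟨s, hs, hsx⟩ := (hmem i x).1 hx
    obtain ⟨s', hs', hsx'⟩ := (hmem j x).1 hx'
    have h1 : s = s' := by rw [← hsupp s, ← hsupp s', hsx, hsx']
    have h2 := hP.inter i j hij s hs s' hs'
    rw [← h1, inter_self, hP.card i s hs] at h2
    omega
  · intro T hT i
    obtain ⟨s, hs, hd⟩ := hP.cov i T hT.le
    exact ⟨ind s, (hmem i _).2 ⟨s, hs, rfl⟩, by rwa [hsupp]⟩
  · intro i x hx
    obtain ⟨s, hs, rfl⟩ := (hmem i x).1 hx
    rw [hsupp]
    exact (hP.card i s hs).le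
  · intro i j hij x hx y hy
    obtain ⟨s, hs, rfl⟩ := (hmem i x).1 hx
    obtain ⟨s', hs', rfl⟩ := (hmem j y).1 hy
    have h1 := hP.inter i j hij s hs s' hs'
    have h2 := hP.card i s hs
    have h3 := hP.card j s' hs'
    have h4 : (s \ s' ∪ s' \ s).card ≤ hammingDist (ind s) (ind s') := by
      unfold hammingDist
      refine card_le_card fun v hv => ?_
      rw [mem_filter]
      refine ⟨mem_univ _, ?_⟩
      simp only [ind]
      rcases mem_union.1 hv with hv | hv
      · obtain ⟨h5, h6⟩ := Finset.mem_sdiff.1 hv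
        simp [h5, h6]
      · obtain ⟨h5, h6⟩ := Finset.mem_sdiff.1 hv
        simp [h5, h6]
    rw [card_union_of_disjoint (by
      rw [Finset.disjoint_left]
      intro v hv hv'
      exact (Finset.mem_sdiff.1 hv').2 (Finset.mem_sdiff.1 hv).1)] at h4
    have h5 := card_sdiff_add_card_inter s s'
    have h6 := card_sdiff_add_card_inter s' s
    rw [inter_comm] at h6
    omega

/-- the lower bound -/
theorem lower {t w : ℕ} (hw : 2 ≤ w) {c : ℝ}
    (hc : c < 1 / ((((t + 2) / 2 : ℕ) : ℝ) * w * (w + 1))) :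
    ∀ᶠ n : ℕ in atTop, c * (n : ℝ) ^ 2 ≤ C n t w (w - 2) := by
  filter_upwards [Pool.Agent.X43.LP.asym_all (t := t) (by omega) (by omega) hc] with n hn
  obtain ⟨b, hb, hcb⟩ := hn
  have : (b : ℝ) ≤ C n t w (w - 2) := by exact_mod_cast le_C hw hb
  linarith

theorem result :
    -- a lower bound for all `t ≥ 1` and `w ≥ 3`
    (∀ t w : ℕ, 1 ≤ t → 3 ≤ w → ∀ c : ℝ, c < 1 / ((((t + 2) / 2 : ℕ) : ℝ) * w * (w + 1)) →
      ∀ᶠ n : ℕ in atTop, c ≤ (C n t w (w - 2) : ℝ) / (n : ℝ) ^ 2) ∧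
    ∀ t w : ℕ, 1 ≤ t → 4 ≤ w → (t + 1) * (w * (w - 1)) < (w + t) * (w + t - 1) →
      -- it exceeds the value in Q1
      (1 / (((t : ℝ) + 1) * w * (w - 1)) < 1 / ((((t + 2) / 2 : ℕ) : ℝ) * w * (w + 1))) ∧
      -- Q1 fails
      (¬ Tendsto (fun n : ℕ => (C n t w (w - 2) : ℝ) / (n : ℝ) ^ 2) atTop
        (𝓝 (1 / (((t : ℝ) + 1) * w * (w - 1))))) ∧
      -- Q2 fails: for all large `n` the value is larger than the one in Q2
      (∀ᶠ n : ℕ in atTop, ⌊((n : ℝ) * (n + 1)) / (((t : ℝ) + 1) * w * (w - 1))⌋ <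
        (C n t w (w - 2) : ℤ)) := by
  have hlow : ∀ t w : ℕ, 1 ≤ t → 3 ≤ w → ∀ c : ℝ,
      c < 1 / ((((t + 2) / 2 : ℕ) : ℝ) * w * (w + 1)) →
      ∀ᶠ n : ℕ in atTop, c ≤ (C n t w (w - 2) : ℝ) / (n : ℝ) ^ 2 := by
    intro t w _ hw c hc
    filter_upwards [lower (by omega) hc, eventually_gt_atTop 0] with n hn hn0
    have hn' : (0 : ℝ) < n := by exact_mod_cast hn0
    rw [le_div_iff₀ (by positivity)]
    exact hn
  refine ⟨hlow, fun t w ht hw h => ?_⟩
  have hgap : 1 / (((t : ℝ) + 1) * w * (w - 1)) < 1 / ((((t + 2) / 2 : ℕ) : ℝ) * w * (w + 1)) := by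
    obtain ⟨v, rfl⟩ := Nat.exists_eq_add_of_le hw
    have e1 : 4 + v - 1 = v + 3 := by omega
    have e2 : 4 + v + t - 1 = v + t + 3 := by omega
    rw [e1, e2] at h
    have h' : ((t : ℤ) + 1) * ((4 + v) * (v + 3)) < (4 + v + t) * (v + t + 3) := by exact_mod_cast h
    have ht6 : (6 : ℤ) ≤ t := by
      by_contra hcon
      push Not at hcon
      have hv : (0 : ℤ) ≤ v := Int.natCast_nonneg v
      have ht0 : (0 : ℤ) ≤ t := Int.natCast_nonneg t
      have h1 : (t : ℤ) * (v ^ 2 + 5 * v + 5 - t) < 0 := by nlinarith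
      have h2 : (0 : ℤ) ≤ t * (v ^ 2 + 5 * v + 5 - t) := by
        apply mul_nonneg ht0
        nlinarith
      omega
    have ht6' : (6 : ℝ) ≤ t := by exact_mod_cast ht6
    have hk : (((t + 2) / 2 : ℕ) : ℝ) ≤ ((t : ℝ) + 2) / 2 := by
      have := Nat.cast_div_le (α := ℝ) (m := t + 2) (n := 2)
      push_cast at this ⊢
      exact this
    have hk0 : (0 : ℝ) < (((t + 2) / 2 : ℕ) : ℝ) := by
      have : 0 < (t + 2) / 2 := by omega
      exact_mod_cast this
    have hv0 : (0 : ℝ) ≤ v := Nat.cast_nonneg v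
    push_cast
    have hw0 : (0 : ℝ) < 4 + v := by positivity
    apply one_div_lt_one_div_of_lt (by positivity)
    have h3 : ((t : ℝ) + 2) / 2 * (4 + v + 1) < (t + 1) * (4 + v - 1) := by nlinarith
    calc (((t + 2) / 2 : ℕ) : ℝ) * (4 + v) * (4 + v + 1)
        ≤ ((t : ℝ) + 2) / 2 * (4 + v) * (4 + v + 1) := by gcongr
      _ = (4 + v) * (((t : ℝ) + 2) / 2 * (4 + v + 1)) := by ring
      _ < (4 + v) * ((t + 1) * (4 + v - 1)) := by gcongr
      _ = _ := by ring
  obtain ⟨c, hc1, hc2⟩ := exists_between hgap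
  obtain ⟨D, hD⟩ : ∃ D : ℝ, D = ((t : ℝ) + 1) * w * (w - 1) := ⟨_, rfl⟩
  have hD0 : 0 < D := by
    have : (4 : ℝ) ≤ w := by exact_mod_cast hw
    rw [hD]
    have h1 : (0 : ℝ) < w - 1 := by linarith
    positivity
  refine ⟨hgap, fun hT => ?_, ?_⟩
  · have h1 := ge_of_tendsto hT (hlow t w ht (by omega) c hc2)
    linarith
  · rw [← hD] at hc1 ⊢
    have hcD : 0 < c - 1 / D := by linarith
    obtain ⟨N, hN⟩ := exists_nat_gt (1 / D / (c - 1 / D))
    filter_upwards [lower (by omega) hc2, eventually_ge_atTop (max N 1)] with n hn hn0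
    have hn1 : (0 : ℝ) < n := by
      have : 0 < n := by omega
      exact_mod_cast this
    have hn2 : (N : ℝ) ≤ n := by
      have : N ≤ n := by omega
      exact_mod_cast this
    rw [Int.floor_lt]
    push_cast
    refine lt_of_lt_of_le ?_ hn
    rw [div_lt_iff₀ hcD] at hN
    have h1 : 1 / D < (c - 1 / D) * n := by nlinarith
    have h2 : 1 / D * n < (c - 1 / D) * n * n := mul_lt_mul_of_pos_right h1 hn1
    have e : (n : ℝ) * (n + 1) / D = 1 / D * n ^ 2 + 1 / D * n := by ring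
    rw [e]
    nlinarith

end Pool.Agent.Results.MP_00ae1c_co.BothFail
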